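import Pool.Agent.N520.AN.Stm2

/-!
AN2/TWO (helper11): limit flags of a sequence and of its inverse
-/

set_option autoImplicit false

open Set Filter Topology

namespace Pool.Agent.N11.AN2

open Pool.Agent.N520.AN

theorem t_two (h1 : Pool.Agent.N520.AN.S2_GR) (h2 : Pool.Agent.N520.AN.S2_SUB) :
    Pool.Agent.N520.AN.S2_TWO := by
  intro E _ _ _ q Λ hA g hg hd
  obtain ⟨φ1, hφ1, hF1⟩ := hA.div g hg hd
  obtain ⟨φ2, hφ2, hd2⟩ := h1 E (g ∘ φ1)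
  have hs := (h2 E q Λ hA (g ∘ φ1) (fun j => hg _)).2.2 hF1
  have hs2 := hs φ2 hφ2
  rw [hs2.2] at hd2
  have hq : Module.finrank ℝ (att (inv (g ∘ φ1) ∘ φ2)) = q := by
    have := hF1.2
    omega
  have hne : att (inv (g ∘ φ1) ∘ φ2) ≠ ⊥ := by
    intro h
    rw [h, finrank_bot] at hq
    have := hA.pos
    omega
  obtain ⟨v, hv, hv0⟩ := Submodule.exists_mem_ne_zero_of_ne_bot hne
  have hD := div_of_att hv hv0
  obtain ⟨φ3, hφ3, hF3⟩ := hA.div (inv (g ∘ φ1) ∘ φ2) (fun j => Λ.inv_mem (hg _)) hD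
  refine ⟨φ1 ∘ φ2 ∘ φ3, hφ1.comp (hφ2.comp hφ3), ?_, hF3⟩
  have hs3 := hs (φ2 ∘ φ3) (hφ2.comp hφ3)
  have e : g ∘ φ1 ∘ φ2 ∘ φ3 = (g ∘ φ1) ∘ (φ2 ∘ φ3) := rfl
  rw [e]
  unfold Fl
  rw [hs3.1, hs3.2]
  exact hF1

end Pool.Agent.N11.AN2
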